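import Pool.Agent.H10.Rec2

namespace Pool.Agent.Results.MP_eb99da_pr.NotAR
open MeasureTheory

/-- The direct sum of countably many copies of the integers is not algebraically recurrent. -/
theorem result [MeasurableSpace (Multiplicative (ℤ →₀ ℤ))]
    [DiscreteMeasurableSpace (Multiplicative (ℤ →₀ ℤ))] :
    ∃ μ : PMF (Multiplicative (ℤ →₀ ℤ)), (∀ g, μ g⁻¹ = μ g) ∧ Subgroup.closure μ.support = ⊤ ∧
      ¬ ∀ᵐ ω ∂(Measure.infinitePi fun _ : ℕ => μ.toMeasure), Subsemigroup.closure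
        (Set.range fun k : ℕ => ((List.range (1 + k)).map ω).prod) = ⊤ :=
  Pool.Agent.H10.Rec.sumZ

end Pool.Agent.Results.MP_eb99da_pr.NotAR
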